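import Mathlib
import Pool.Agent.W5h69.QM
import Pool.Agent.W5h69.Line
import Pool.Agent.W5h69.Amen

set_option autoImplicit false

/-!
# A non-amenable subgroup of `Map(ℝ² - C)` without quasimorphisms

`C` is the middle third Cantor set on the `x`-axis of the plane. We find a finitely generated subgroup
`H` of the mapping class group of `ℝ² - C` which is not amenable and on which every homogeneous
quasimorphism is a homomorphism, so that the space of homogeneous quasimorphisms modulo
homomorphisms is zero.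

All the mapping classes in `H` are represented by homeomorphisms `(x, y) ↦ (g x, y)`, where `g` is
an increasing homeomorphism of the line which preserves the Cantor set. The group of these maps `g`
is a wreath product: there are infinitely many disjoint copies of an interval, permuted by an infinite
cyclic group, and on one of the intervals acts a group containing a lift of a ping-pong pair of the
circle. Two mapping classes of this kind are equal only if the maps agree on the Cantor set.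
-/

namespace Pool.Agent.Results.MP_ac6992_gt.NonAmenableNoQM

open Set Topology Pool.Agent.W5h69.QM Pool.Agent.W5h69.Line Pool.Agent.W5h69.Amen

/-- The middle third Cantor set on the `x`-axis of the plane. -/
def C : Set (ℝ × ℝ) := {p | p.1 ∈ cantorSet ∧ p.2 = 0}

/-- The surface `S = ℝ² - C`. -/
def S : Type := {p : ℝ × ℝ // p ∉ C}

/-- The subspace topology on `S`. -/
instance topS : TopologicalSpace S := instTopologicalSpaceSubtype

/-- The inclusion of `S` in the plane. -/
def inc (p : S) : ℝ × ℝ := p.1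

/-- `f` is isotopic to the identity: there is a homeomorphism `Φ` of `[0,1] × S` which preserves
every level `{t} × S`, is the identity on the level `0` and is equal to `f` on the level `1`. -/
def IsotopicToId (f : S ≃ₜ S) : Prop :=
  ∃ Φ : (unitInterval × S) ≃ₜ (unitInterval × S),
    (∀ p, (Φ p).1 = p.1) ∧ (∀ x, Φ (0, x) = (0, x)) ∧ (∀ x, Φ (1, x) = (1, f x))

lemma IsotopicToId.mul {f g : S ≃ₜ S} (hf : IsotopicToId f) (hg : IsotopicToId g) :
    IsotopicToId (f * g) := by
  obtain ⟨Φ, h1, h2, h3⟩ := hf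
  obtain ⟨Ψ, k1, k2, k3⟩ := hg
  refine ⟨Ψ.trans Φ, fun p => ?_, fun x => ?_, fun x => ?_⟩
  · rw [Homeomorph.trans_apply, h1, k1]
  · rw [Homeomorph.trans_apply, k2, h2]
  · rw [Homeomorph.trans_apply, k3, h3]; rfl

lemma IsotopicToId.one : IsotopicToId 1 :=
  ⟨Homeomorph.refl _, fun _ => rfl, fun _ => rfl, fun _ => rfl⟩

lemma IsotopicToId.inv {f : S ≃ₜ S} (hf : IsotopicToId f) : IsotopicToId f⁻¹ := by
  obtain ⟨Φ, h1, h2, h3⟩ := hf
  refine ⟨Φ.symm, fun p => ?_, fun x => ?_, fun x => ?_⟩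
  · have := h1 (Φ.symm p)
    rw [Homeomorph.apply_symm_apply] at this
    exact this.symm
  · rw [Homeomorph.symm_apply_eq, h2]
  · rw [Homeomorph.symm_apply_eq, h3]
    congr 1
    exact (f.apply_symm_apply x).symm

/-- The group `Homeo₀(S)` of homeomorphisms of `S` isotopic to the identity. -/
def Homeo0 : Subgroup (S ≃ₜ S) where
  carrier := {f | IsotopicToId f}
  mul_mem' := IsotopicToId.mul
  one_mem' := IsotopicToId.one
  inv_mem' := IsotopicToId.inv

instance Homeo0_normal : Homeo0.Normal := by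
  refine ⟨?_⟩
  rintro f ⟨Φ, h1, h2, h3⟩ g
  refine ⟨((Homeomorph.refl unitInterval).prodCongr g).symm.trans
    (Φ.trans ((Homeomorph.refl unitInterval).prodCongr g)), fun p => ?_, fun x => ?_, fun x => ?_⟩
  · show (Φ (p.1, g.symm p.2)).1 = p.1
    rw [h1]
  · show ((Φ (0, g.symm x)).1, g (Φ (0, g.symm x)).2) = (0, x)
    rw [h2]
    simp
  · show ((Φ (1, g.symm x)).1, g (Φ (1, g.symm x)).2) = (1, (g * f * g⁻¹) x)
    rw [h3]
    rfl

/-- The extended mapping class group: all isotopy classes of homeomorphisms of `S`. -/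
def ExtMap : Type := (S ≃ₜ S) ⧸ Homeo0

/-- The group structure of the extended mapping class group, as a quotient group. -/
instance groupExtMap : Group ExtMap := QuotientGroup.Quotient.group Homeo0

/-- The mapping class of a homeomorphism of `S`. -/
def mcl : (S ≃ₜ S) →* ExtMap := QuotientGroup.mk' Homeo0

/-- `f` preserves the orientation: for every closed round disc in `S` the image under `f` of its
boundary circle, traversed counterclockwise, winds exactly once counterclockwise around the image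
of its centre. (`θ` is a continuous choice of the angle under which `f (c t)` is seen from `f z`.) -/
def OrientationPreserving (f : S ≃ₜ S) : Prop :=
  ∀ (z : S) (r : ℝ) (c : ℝ → S), 0 < r →
    (∀ p : ℝ × ℝ, (p.1 - (inc z).1) ^ 2 + (p.2 - (inc z).2) ^ 2 ≤ r ^ 2 → p ∉ C) →
    (∀ t, inc (c t) = ((inc z).1 + r * Real.cos t, (inc z).2 + r * Real.sin t)) →
    ∃ θ ρ : ℝ → ℝ, Continuous θ ∧ (∀ t, 0 < ρ t) ∧
      (∀ t, θ (t + 2 * Real.pi) = θ t + 2 * Real.pi) ∧
      ∀ t, inc (f (c t)) =
        ((inc (f z)).1 + ρ t * Real.cos (θ t), (inc (f z)).2 + ρ t * Real.sin (θ t))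

/-- The mapping class group `Map(S)`: the isotopy classes of orientation preserving
homeomorphisms, as a subset of the extended mapping class group. -/
def MapS : Set ExtMap := {c | ∃ f : S ≃ₜ S, OrientationPreserving f ∧ mcl f = c}

lemma qm_add {H : Type} [Group H] {φ ψ : H → ℝ} (h1 : IsQuasimorphism φ ∧ IsHomogeneous φ)
    (h2 : IsQuasimorphism ψ ∧ IsHomogeneous ψ) :
    IsQuasimorphism (φ + ψ) ∧ IsHomogeneous (φ + ψ) := by
  obtain ⟨⟨D', hD'⟩, k2⟩ := h2
  obtain ⟨⟨D, hD⟩, h2⟩ := h1
  refine ⟨⟨D + D', fun g h => ?_⟩, fun g n => ?_⟩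
  · have e : (φ + ψ) (g * h) - (φ + ψ) g - (φ + ψ) h =
        (φ (g * h) - φ g - φ h) + (ψ (g * h) - ψ g - ψ h) := by
      simp only [Pi.add_apply]; ring
    rw [e]
    exact (abs_add_le _ _).trans (add_le_add (hD g h) (hD' g h))
  · simp only [Pi.add_apply, h2 g n, k2 g n]; ring

lemma qm_zero {H : Type} [Group H] :
    IsQuasimorphism (0 : H → ℝ) ∧ IsHomogeneous (0 : H → ℝ) :=
  ⟨⟨0, fun g h => by simp⟩, fun g n => by simp⟩

lemma qm_smul {H : Type} [Group H] (c : ℝ) {φ : H → ℝ}
    (h1 : IsQuasimorphism φ ∧ IsHomogeneous φ) :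
    IsQuasimorphism (c • φ) ∧ IsHomogeneous (c • φ) := by
  obtain ⟨⟨D, hD⟩, h2⟩ := h1
  refine ⟨⟨|c| * D, fun g h => ?_⟩, fun g n => ?_⟩
  · have e : (c • φ) (g * h) - (c • φ) g - (c • φ) h = c * (φ (g * h) - φ g - φ h) := by
      simp only [Pi.smul_apply, smul_eq_mul]; ring
    rw [e, abs_mul]
    exact mul_le_mul_of_nonneg_left (hD g h) (abs_nonneg c)
  · simp only [Pi.smul_apply, smul_eq_mul, h2 g n]; ring

/-- The real vector space `Q(H)` of homogeneous quasimorphisms on a group. -/
def Q (H : Type) [Group H] : Submodule ℝ (H → ℝ) where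
  carrier := {φ | IsQuasimorphism φ ∧ IsHomogeneous φ}
  add_mem' := qm_add
  zero_mem' := qm_zero
  smul_mem' := fun c _ h => qm_smul c h

/-- A homomorphism to the additive group of the reals. -/
def IsHom {H : Type} [Group H] (φ : H → ℝ) : Prop := ∀ g h : H, φ (g * h) = φ g + φ h

lemma isHom_add {H : Type} [Group H] {φ ψ : H → ℝ} (h1 : IsHom φ) (h2 : IsHom ψ) :
    IsHom (φ + ψ) := by
  intro g h
  simp only [Pi.add_apply, h1 g h, h2 g h]; ring

lemma isHom_zero {H : Type} [Group H] : IsHom (0 : H → ℝ) := by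
  intro g h
  simp

lemma isHom_smul {H : Type} [Group H] (c : ℝ) {φ : H → ℝ} (h1 : IsHom φ) : IsHom (c • φ) := by
  intro g h
  simp only [Pi.smul_apply, smul_eq_mul, h1 g h]; ring

/-- The real vector space `Hom(H, ℝ)`. -/
def HomR (H : Type) [Group H] : Submodule ℝ (H → ℝ) where
  carrier := {φ | IsHom φ}
  add_mem' := isHom_add
  zero_mem' := isHom_zero
  smul_mem' := fun c _ h => isHom_smul c h

/-- The real dimension (a cardinal number) of the space `Q(H) / Hom(H, ℝ)`, the quotient of `Q(H)`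
by its subspace of homomorphisms. -/
noncomputable def dimQtilde (H : Type) [Group H] : Cardinal :=
  Module.rank ℝ (Q H ⧸ (HomR H).submoduleOf (Q H))

/-! ### Homeomorphisms of the surface coming from the line -/

/-- the map `(x, y) ↦ (g x, y)` of the surface -/
noncomputable def Ffun (g : Pres cantorSet) (p : S) : S :=
  ⟨((g : ℝ ≃o ℝ) p.1.1, p.1.2), fun h => p.2 ⟨(g.2 p.1.1).1 h.1, h.2⟩⟩

lemma Ffun_continuous (g : Pres cantorSet) : Continuous (Ffun g) := by
  unfold Ffun
  apply Continuous.subtype_mk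
  have h1 : Continuous (g : ℝ ≃o ℝ) := (g : ℝ ≃o ℝ).continuous
  fun_prop

lemma Ffun_comp (g h : Pres cantorSet) (p : S) : Ffun g (Ffun h p) = Ffun (g * h) p := rfl

lemma Ffun_one (p : S) : Ffun 1 p = p := rfl

/-- the homeomorphism `(x, y) ↦ (g x, y)` of the surface -/
noncomputable def F : Pres cantorSet →* (S ≃ₜ S) where
  toFun g :=
    { toFun := Ffun g
      invFun := Ffun g⁻¹
      left_inv := fun p => by rw [Ffun_comp, inv_mul_cancel, Ffun_one]
      right_inv := fun p => by rw [Ffun_comp, mul_inv_cancel, Ffun_one]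
      continuous_toFun := Ffun_continuous g
      continuous_invFun := Ffun_continuous g⁻¹ }
  map_one' := by
    apply Homeomorph.ext
    intro p
    rfl
  map_mul' g h := by
    apply Homeomorph.ext
    intro p
    rfl

lemma F_apply (g : Pres cantorSet) (p : S) :
    inc (F g p) = ((g : ℝ ≃o ℝ) (inc p).1, (inc p).2) := rfl

lemma F_orientation (g : Pres cantorSet) : OrientationPreserving (F g) := by
  intro z r c hr _ hc
  set x := (inc z).1 with hx
  set a : ℝ → ℝ := fun t => (g : ℝ ≃o ℝ) (x + r * Real.cos t) - (g : ℝ ≃o ℝ) x with ha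
  set b : ℝ → ℝ := fun t => r * Real.sin t with hb
  set R : ℝ → ℝ := fun t => a t * Real.cos t + b t * Real.sin t with hR
  set I : ℝ → ℝ := fun t => b t * Real.cos t - a t * Real.sin t with hI
  have hg : Continuous (g : ℝ ≃o ℝ) := (g : ℝ ≃o ℝ).continuous
  have ca : Continuous a := by rw [ha]; fun_prop
  have cb : Continuous b := by rw [hb]; fun_prop
  have cR : Continuous R := by rw [hR]; fun_prop
  have cI : Continuous I := by rw [hI]; fun_prop
  have hpos : ∀ t, 0 < R t := by
    intro t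
    have h1 : 0 ≤ b t * Real.sin t := by
      simp only [hb]
      have := mul_nonneg hr.le (mul_self_nonneg (Real.sin t))
      nlinarith
    rcases lt_trichotomy (Real.cos t) 0 with h | h | h
    · have h2 : a t < 0 := by
        simp only [ha]
        have : (g : ℝ ≃o ℝ) (x + r * Real.cos t) < (g : ℝ ≃o ℝ) x :=
          (g : ℝ ≃o ℝ).strictMono (by nlinarith)
        linarith
      have := mul_pos_of_neg_of_neg h2 h
      simp only [hR]; linarith
    · have h3 : Real.sin t * Real.sin t = 1 := by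
        have := Real.sin_sq_add_cos_sq t
        rw [h] at this
        nlinarith
      simp only [hR, hb, h]
      nlinarith
    · have h2 : 0 < a t := by
        simp only [ha]
        have : (g : ℝ ≃o ℝ) x < (g : ℝ ≃o ℝ) (x + r * Real.cos t) :=
          (g : ℝ ≃o ℝ).strictMono (by nlinarith)
        linarith
      have := mul_pos h2 h
      simp only [hR]; linarith
  refine ⟨fun t => t + Real.arctan (I t / R t), fun t => R t * √(1 + (I t / R t) ^ 2), ?_, ?_, ?_, ?_⟩
  · exact continuous_id.add (Real.continuous_arctan.comp (cI.div cR (fun t => (hpos t).ne')))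
  · intro t
    have := hpos t
    positivity
  · intro t
    simp only [hI, hR, ha, hb, Real.cos_add_two_pi, Real.sin_add_two_pi]
    ring
  · intro t
    have hs : 0 < √(1 + (I t / R t) ^ 2) := by positivity
    have hne := (hpos t).ne'
    have e1 : R t * √(1 + (I t / R t) ^ 2) * Real.cos (Real.arctan (I t / R t)) = R t := by
      rw [Real.cos_arctan]; field_simp
    have e2 : R t * √(1 + (I t / R t) ^ 2) * Real.sin (Real.arctan (I t / R t)) = I t := by
      rw [Real.sin_arctan]; field_simp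
    have e3 := Real.sin_sq_add_cos_sq t
    have e4 : R t * √(1 + (I t / R t) ^ 2) * Real.cos (t + Real.arctan (I t / R t)) = a t := by
      rw [Real.cos_add]
      calc _ = Real.cos t * (R t * √(1 + (I t / R t) ^ 2) * Real.cos (Real.arctan (I t / R t))) -
            Real.sin t * (R t * √(1 + (I t / R t) ^ 2) * Real.sin (Real.arctan (I t / R t))) := by
              ring
        _ = Real.cos t * R t - Real.sin t * I t := by rw [e1, e2]
        _ = a t * (Real.sin t ^ 2 + Real.cos t ^ 2) := by simp only [hR, hI]; ring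
        _ = a t := by rw [e3, mul_one]
    have e5 : R t * √(1 + (I t / R t) ^ 2) * Real.sin (t + Real.arctan (I t / R t)) = b t := by
      rw [Real.sin_add]
      calc _ = Real.sin t * (R t * √(1 + (I t / R t) ^ 2) * Real.cos (Real.arctan (I t / R t))) +
            Real.cos t * (R t * √(1 + (I t / R t) ^ 2) * Real.sin (Real.arctan (I t / R t))) := by
              ring
        _ = Real.sin t * R t + Real.cos t * I t := by rw [e1, e2]
        _ = b t * (Real.sin t ^ 2 + Real.cos t ^ 2) := by simp only [hR, hI]; ring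
        _ = b t := by rw [e3, mul_one]
    rw [F_apply, F_apply, hc]
    simp only
    rw [e4, e5]
    apply Prod.ext
    · simp only [ha, hx]; ring
    · simp only [hb]

/-! ### Isotopic maps agree on the Cantor set -/

lemma inc_embedding : IsEmbedding inc := IsEmbedding.subtypeVal

lemma separate (g : Pres cantorSet) (hg : IsotopicToId (F g)) (c : ℝ) (hc : c ∈ cantorSet)
    (m R : ℝ) (hR : 0 < R) (h1 : m - R ∉ cantorSet) (h2 : m + R ∉ cantorSet)
    (hin : |c - m| < R) : |(g : ℝ ≃o ℝ) c - m| ≤ R := by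
  by_contra hcon
  push Not at hcon
  obtain ⟨Φ, k1, k2, k3⟩ := hg
  -- the separating square
  set L : Set S := {p | dist (inc p) (m, 0) = R} with hL
  have hLimg : inc '' L = Metric.sphere ((m, 0) : ℝ × ℝ) R := by
    ext p
    simp only [mem_image, Metric.mem_sphere]
    constructor
    · rintro ⟨q, hq, rfl⟩; exact hq
    · intro hp
      refine ⟨⟨p, fun hpC => ?_⟩, hp, rfl⟩
      obtain ⟨e1, e2⟩ := hpC
      rw [Prod.dist_eq, e2, dist_self, max_eq_left dist_nonneg, Real.dist_eq] at hp
      simp only at hp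
      rcases abs_eq hR.le |>.1 hp with h | h
      · apply h2; convert e1 using 1; linarith
      · apply h1; convert e1 using 1; linarith
  have hLcomp : IsCompact L := by
    rw [inc_embedding.isInducing.isCompact_iff, hLimg]
    exact isCompact_sphere _ _
  -- the points whose track meets the square
  have hT : IsCompact (Φ.symm '' ((univ : Set unitInterval) ×ˢ L)) :=
    (isCompact_univ.prod hLcomp).image Φ.symm.continuous
  have hK : IsCompact (inc '' (Prod.snd '' (Φ.symm '' ((univ : Set unitInterval) ×ˢ L)))) :=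
    (hT.image continuous_snd).image inc_embedding.continuous
  set K : Set (ℝ × ℝ) := inc '' (Prod.snd '' (Φ.symm '' ((univ : Set unitInterval) ×ˢ L)))
    with hKdef
  have hcK : ((c, 0) : ℝ × ℝ) ∉ K := by
    rintro ⟨q, _, hq⟩
    have hqC : inc q ∉ C := q.2
    rw [hq] at hqC
    exact hqC ⟨hc, rfl⟩
  obtain ⟨δ, hδ, hball⟩ := Metric.isOpen_iff.1 hK.isClosed.isOpen_compl _ hcK
  set ε : ℝ := min δ R / 2 with hε
  have hmin : 0 < min δ R := lt_min hδ hR
  have hε0 : 0 < ε := by rw [hε]; linarith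
  have hεδ : ε < δ := by have := min_le_left δ R; rw [hε]; linarith
  have hεR : ε < R := by have := min_le_right δ R; rw [hε]; linarith
  let p : S := ⟨(c, ε), fun h => hε0.ne' h.2⟩
  have hpK : ((c, ε) : ℝ × ℝ) ∉ K := by
    apply hball
    rw [Metric.mem_ball, Prod.dist_eq]
    simp only [dist_self, Real.dist_eq, sub_zero]
    rw [max_eq_right (abs_nonneg _), abs_of_pos hε0]
    exact hεδ
  -- the distance from the centre along the track of `p`
  let f : unitInterval → ℝ := fun t => dist (inc (Φ (t, p)).2) (m, 0)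
  have hf : Continuous f := by
    have : Continuous (fun t : unitInterval => inc (Φ (t, p)).2) :=
      inc_embedding.continuous.comp (continuous_snd.comp (Φ.continuous.comp
        (continuous_id.prodMk continuous_const)))
    exact this.dist continuous_const
  have hf0 : f 0 ≤ R := by
    simp only [f, k2]
    show dist ((c, ε) : ℝ × ℝ) (m, 0) ≤ R
    rw [Prod.dist_eq, Real.dist_eq, Real.dist_eq]
    simp only [sub_zero]
    rw [abs_of_pos hε0]
    exact max_le hin.le hεR.le
  have hf1 : R ≤ f 1 := by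
    simp only [f, k3]
    show R ≤ dist (((g : ℝ ≃o ℝ) c, ε) : ℝ × ℝ) (m, 0)
    rw [Prod.dist_eq, Real.dist_eq]
    exact hcon.le.trans (le_max_left _ _)
  obtain ⟨t, ht⟩ := mem_range_of_exists_le_of_exists_ge hf ⟨0, hf0⟩ ⟨1, hf1⟩
  apply hpK
  refine ⟨p, ⟨(t, p), ⟨Φ (t, p), ⟨mem_univ _, ht⟩, Φ.symm_apply_apply _⟩, rfl⟩, rfl⟩

/-- If `(x, y) ↦ (g x, y)` is isotopic to the identity on the complement of the Cantor set, then
`g` fixes all points of the Cantor set. -/
lemma fix_of_isotopic (g : Pres cantorSet) (hg : IsotopicToId (F g)) (c : ℝ)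
    (hc : c ∈ cantorSet) : (g : ℝ ≃o ℝ) c = c := by
  have hgc : (g : ℝ ≃o ℝ) c ∈ cantorSet := (g.2 c).2 hc
  have b1 := cantor_bounds hc
  have b2 := cantor_bounds hgc
  rcases lt_trichotomy ((g : ℝ ≃o ℝ) c) c with h | h | h
  · exfalso
    obtain ⟨y, hy1, hy2, hy3⟩ := cantor_empty_interior _ _ h
    have := separate g hg c hc ((y + 2) / 2) ((2 - y) / 2) (by linarith)
      (by convert hy3 using 1; ring_nf) (fun h5 => by
        have := (cantor_bounds h5).2; linarith) (by rw [abs_lt]; constructor <;> linarith)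
    rw [abs_le] at this
    linarith [this.1]
  · exact h
  · exfalso
    obtain ⟨y, hy1, hy2, hy3⟩ := cantor_empty_interior _ _ h
    have := separate g hg c hc ((y - 1) / 2) ((y + 1) / 2) (by linarith)
      (fun h5 => by have := (cantor_bounds h5).1; linarith)
      (by convert hy3 using 1; ring_nf) (by rw [abs_lt]; constructor <;> linarith)
    rw [abs_le] at this
    linarith [this.2]

/-! ### The group -/

/-- the compactification operator from automorphisms preserving `KC` to those preserving the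
Cantor set -/
noncomputable def Ec : Pres KC →* Pres cantorSet :=
  (E.comp (Pres KC).subtype).codRestrict (Pres cantorSet) (fun h => E_mem_cantor h.2)

/-- the compactification operator from automorphisms preserving `KC` to themselves -/
noncomputable def Ek : Pres KC →* Pres KC :=
  (E.comp (Pres KC).subtype).codRestrict (Pres KC) (fun h => E_mem_KC h.2)

lemma Ec_coe (h : Pres KC) : ((Ec h : Pres cantorSet) : ℝ ≃o ℝ) = E h := rfl
lemma Ek_coe (h : Pres KC) : ((Ek h : Pres KC) : ℝ ≃o ℝ) = E h := rfl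

/-- the mapping class of an automorphism preserving `KC` -/
noncomputable def cl : Pres KC →* ExtMap := mcl.comp (F.comp Ec)

lemma cl_eq {g h : Pres KC} (hgh : cl g = cl h) (x : ℝ) (hx : x ∈ KC) :
    (g : ℝ ≃o ℝ) x = (h : ℝ ≃o ℝ) x := by
  have h1 : cl (g⁻¹ * h) = 1 := by rw [map_mul, map_inv, hgh, inv_mul_cancel]
  have h2 : F (Ec (g⁻¹ * h)) ∈ Homeo0 := (QuotientGroup.eq_one_iff _).1 h1
  have h3 := fix_of_isotopic _ h2 (θ x) ((θ_cantor x).2 hx)
  rw [Ec_coe, E_θ] at h3
  have h4 := θ_mono.injective h3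
  have h5 : (g : ℝ ≃o ℝ) (((g⁻¹ * h : Pres KC) : ℝ ≃o ℝ) x) = (h : ℝ ≃o ℝ) x := by
    show ((g * (g⁻¹ * h) : Pres KC) : ℝ ≃o ℝ) x = _
    rw [mul_inv_cancel_left]
  rw [← h5, h4]

/-- translation by two -/
noncomputable def s : Pres KC := ⟨sh, sh_mem⟩
/-- the piecewise affine map `vv` -/
noncomputable def v : Pres KC := ⟨vv, vv_mem⟩

/-- the group generated by the translation and the compactified ping-pong pair -/
noncomputable def G : Subgroup (Pres KC) := Subgroup.closure {s, Ek s, Ek v}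

/-- the ping-pong group -/
noncomputable def Γ : Subgroup (Pres KC) := Subgroup.closure {s, v}

lemma map_Γ_le : Γ.map Ek ≤ G := by
  unfold Γ G
  rw [MonoidHom.map_closure]
  apply Subgroup.closure_mono
  rintro _ ⟨x, hx, rfl⟩
  rcases hx with rfl | hx
  · simp
  · rw [mem_singleton_iff] at hx
    subst hx
    simp

/-- the subgroup of mapping classes -/
noncomputable def H : Subgroup ExtMap := G.map cl

lemma H_le : ∀ c ∈ H, c ∈ MapS := by
  rintro c ⟨g, _, rfl⟩
  exact ⟨F (Ec g), F_orientation _, rfl⟩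

lemma H_fg : Group.FG H := by
  rw [Group.fg_iff_subgroup_fg]
  unfold H G
  rw [MonoidHom.map_closure]
  classical
  refine ⟨(({s, Ek s, Ek v} : Finset (Pres KC)).image cl), ?_⟩
  congr 1
  push_cast
  rfl

/-! ### Non-amenability -/

theorem not_amenable : ¬ Amenable H := by
  intro hA
  -- the image of the ping-pong group in `H`
  set L : Subgroup H := ((Γ.map Ek).map cl).subgroupOf H with hL
  have hrep : ∀ l : L, ∃ γ : Γ, cl (Ek γ) = ((l : H) : ExtMap) := by
    intro l
    obtain ⟨g, ⟨γ, hγ, rfl⟩, hg⟩ := (Subgroup.mem_subgroupOf.1 l.2)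
    exact ⟨⟨γ, hγ⟩, hg⟩
  choose γ hγ using hrep
  have zero_mem_KC : (0:ℝ) ∈ KC := ⟨0, by simpa using zero_mem_cantorSet⟩
  -- two representatives move the base point in the same way
  have hwd : ∀ a b : Pres KC, cl (Ek a) = cl (Ek b) → ∀ x ∈ KC,
      (a : ℝ ≃o ℝ) x = (b : ℝ ≃o ℝ) x := by
    intro a b hab x hx
    have h1 := cl_eq hab (θ x) ((KC_unit (θ_mem x)).2 ((θ_cantor x).2 hx))
    rw [Ek_coe, Ek_coe, E_θ, E_θ] at h1
    exact θ_mono.injective h1
  let w : L → ℝ := fun l => ((γ l : Pres KC) : ℝ ≃o ℝ) 0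
  have hw : ∀ (l l' : L) (a : Pres KC), cl (Ek a) = ((l : H) : ExtMap) →
      w (l * l') = (a : ℝ ≃o ℝ) (w l') := by
    intro l l' a ha
    have h1 : cl (Ek (γ (l * l') : Pres KC)) = cl (Ek (a * (γ l' : Pres KC))) := by
      rw [hγ, map_mul, map_mul, ha, hγ]; rfl
    exact hwd _ _ h1 0 zero_mem_KC
  obtain ⟨ν, n1, n2, n3⟩ := exists_mean hA L w
  have hmem : ∀ a : Pres KC, a ∈ Γ → ∃ l : L, cl (Ek a) = ((l : H) : ExtMap) := by
    intro a ha
    refine ⟨⟨⟨cl (Ek a), ?_⟩, ?_⟩, rfl⟩
    · exact Subgroup.mem_map_of_mem _ (map_Γ_le (Subgroup.mem_map_of_mem _ ha))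
    · rw [hL, Subgroup.mem_subgroupOf]
      exact Subgroup.mem_map_of_mem _ (Subgroup.mem_map_of_mem _ ha)
  have hinv : ∀ a : Pres KC, a ∈ Γ → ∀ A : Set ℝ, ν ((a : ℝ ≃o ℝ) ⁻¹' A) = ν A := by
    intro a ha A
    obtain ⟨l, hl⟩ := hmem a ha
    exact n3 l (a : ℝ ≃o ℝ) (fun l' => hw l l' a hl) A
  have hs : s ∈ Γ := Subgroup.subset_closure (by simp)
  have hv : v ∈ Γ := Subgroup.subset_closure (by simp)
  have e1 : ν (Res 2 4) = ν (Res 0 2) := by
    have := hinv s hs (Res 0 2)
    rw [show ((s : Pres KC) : ℝ ≃o ℝ) ⁻¹' (Res 0 2) = Res 2 4 from pre_sh] at this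
    exact this
  have e2 : ν (Res 0 2) = ν (Res 2 (8 / 3)) := by
    have := hinv v hv (Res 2 (8 / 3))
    rw [show ((v : Pres KC) : ℝ ≃o ℝ) ⁻¹' (Res 2 (8 / 3)) = Res 0 2 from pre_vv1] at this
    exact this
  have e3 : ν (Res 2 (8 / 3)) = ν (Res (8 / 3) 4) := by
    have := hinv v hv (Res (8 / 3) 4)
    rw [show ((v : Pres KC) : ℝ ≃o ℝ) ⁻¹' (Res (8 / 3) 4) = Res 2 (8 / 3) from pre_vv2] at this
    exact this
  have key : ∀ a b c : ℝ, 0 ≤ a → a ≤ b → b ≤ c → c ≤ 4 →
      ν (Res a c) = ν (Res a b) + ν (Res b c) := by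
    intro a b c h0 hab hbc hc
    rw [← n2]
    · congr 1
      ext x
      obtain ⟨n, hn0, hn1⟩ := per4 x
      rw [mem_union, res_iff h0 hc hn0 hn1, res_iff h0 (hbc.trans hc) hn0 hn1,
        res_iff (h0.trans hab) hc hn0 hn1]
      constructor
      · rintro ⟨h3, h4⟩
        rcases lt_or_ge (x - 4 * n) b with h5 | h5
        · left; exact ⟨h3, h5⟩
        · right; exact ⟨h5, h4⟩
      · rintro (⟨h3, h4⟩ | ⟨h3, h4⟩)
        · exact ⟨h3, by linarith⟩
        · exact ⟨by linarith, h4⟩
    · rw [disjoint_left]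
      intro x hx hx'
      obtain ⟨n, hn0, hn1⟩ := per4 x
      rw [res_iff h0 (hbc.trans hc) hn0 hn1] at hx
      rw [res_iff (h0.trans hab) hc hn0 hn1] at hx'
      linarith [hx.2, hx'.1]
  have k1 := key 0 2 4 le_rfl (by norm_num) (by norm_num) le_rfl
  have k2 := key 2 (8 / 3) 4 (by norm_num) (by norm_num) (by norm_num) le_rfl
  have k3 : ν (Res 0 4) = 1 := by
    rw [← n1]
    congr 1
    ext x
    obtain ⟨n, hn0, hn1⟩ := per4 x
    rw [res_iff le_rfl le_rfl hn0 hn1]
    simp [hn1, hn0]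
  linarith

/-! ### Quasimorphisms -/

/-- automorphisms which agree near infinity with a translation by an even integer -/
def T : Subgroup (Pres KC) where
  carrier := {g | ∃ k : ℤ, ∃ M : ℝ, ∀ x : ℝ, M ≤ |x| → (g : ℝ ≃o ℝ) x = x + 2 * k}
  mul_mem' := by
    rintro g h ⟨k, M, hg⟩ ⟨l, N, hh⟩
    refine ⟨k + l, max N (M + |2 * (l:ℝ)|), fun x hx => ?_⟩
    have h1 := hh x ((le_max_left _ _).trans hx)
    have h2 : M ≤ |x + 2 * l| := by
      have h3 := (le_max_right _ _).trans hx
      have h4 := abs_sub_abs_le_abs_sub x (-(2 * (l:ℝ)))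
      rw [abs_neg, sub_neg_eq_add] at h4
      linarith
    show (g : ℝ ≃o ℝ) ((h : ℝ ≃o ℝ) x) = _
    rw [h1, hg _ h2]
    push_cast
    ring
  one_mem' := ⟨0, 0, fun x _ => by
    show x = _
    simp⟩
  inv_mem' := by
    rintro g ⟨k, M, hg⟩
    refine ⟨-k, M + |2 * (k:ℝ)|, fun x hx => ?_⟩
    have h2 : M ≤ |x - 2 * k| := by
      have h4 := abs_sub_abs_le_abs_sub x (2 * (k:ℝ))
      linarith
    have h3 := hg _ h2
    rw [sub_add_cancel] at h3
    show (g : ℝ ≃o ℝ).symm x = _
    rw [OrderIso.symm_apply_eq]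
    push_cast
    rw [show x + 2 * -(k:ℝ) = x - 2 * k by ring, h3]

lemma G_le_T : G ≤ T := by
  unfold G
  rw [Subgroup.closure_le]
  have hE : ∀ h : Pres KC, Ek h ∈ T := by
    intro h
    refine ⟨0, 1, fun x hx => ?_⟩
    rw [Ek_coe, E_out]
    · simp
    · rintro ⟨h1, h2⟩
      rw [abs_of_pos h1] at hx
      linarith
  rintro x (rfl | rfl | hx)
  · exact ⟨1, 0, fun x _ => by
      show x + 2 = _
      norm_num⟩
  · exact hE _
  · rw [mem_singleton_iff] at hx
    subst hx
    exact hE _

lemma T_unique {g : Pres KC} {k l : ℤ} {M N : ℝ}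
    (h1 : ∀ x : ℝ, M ≤ |x| → (g : ℝ ≃o ℝ) x = x + 2 * k)
    (h2 : ∀ x : ℝ, N ≤ |x| → (g : ℝ ≃o ℝ) x = x + 2 * l) : k = l := by
  have a1 := h1 (max M N) ((le_max_left M N).trans (le_abs_self _))
  have a2 := h2 (max M N) ((le_max_right M N).trans (le_abs_self _))
  rw [a1] at a2
  have : (k:ℝ) = l := by linarith
  exact_mod_cast this

/-- the translation amount near infinity -/
noncomputable def τ : G →* Multiplicative ℤ :=
  MonoidHom.mk' (fun g => Multiplicative.ofAdd (Classical.choose (G_le_T g.2))) (by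
    intro g h
    obtain ⟨M, hM⟩ := Classical.choose_spec (G_le_T g.2)
    obtain ⟨N, hN⟩ := Classical.choose_spec (G_le_T h.2)
    obtain ⟨M', hM'⟩ := Classical.choose_spec (G_le_T (g * h).2)
    rw [← ofAdd_add]
    congr 1
    set k := Classical.choose (G_le_T g.2)
    set l := Classical.choose (G_le_T h.2)
    refine T_unique hM' (N := max N (M + |2 * (l:ℝ)|)) (fun x hx => ?_)
    have h1 := hN x ((le_max_left _ _).trans hx)
    have h2 : M ≤ |x + 2 * l| := by
      have h3 := (le_max_right _ _).trans hx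
      have h4 := abs_sub_abs_le_abs_sub x (-(2 * (l:ℝ)))
      rw [abs_neg, sub_neg_eq_add] at h4
      linarith
    show ((g : Pres KC) : ℝ ≃o ℝ) (((h : Pres KC) : ℝ ≃o ℝ) x) = _
    rw [h1, hM _ h2]
    push_cast
    ring)

lemma τ_spec {g : G} {k : ℤ} {M : ℝ}
    (h : ∀ x : ℝ, M ≤ |x| → ((g : Pres KC) : ℝ ≃o ℝ) x = x + 2 * k) :
    τ g = Multiplicative.ofAdd k := by
  obtain ⟨N, hN⟩ := Classical.choose_spec (G_le_T g.2)
  show Multiplicative.ofAdd (Classical.choose (G_le_T g.2)) = _
  rw [T_unique hN h]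

lemma of_τ_one {g : G} (h : τ g = 1) : ∃ M : ℝ, ∀ x : ℝ, M ≤ |x| →
    ((g : Pres KC) : ℝ ≃o ℝ) x = x := by
  obtain ⟨N, hN⟩ := Classical.choose_spec (G_le_T g.2)
  have h1 : Classical.choose (G_le_T g.2) = 0 := h
  refine ⟨N, fun x hx => ?_⟩
  rw [hN x hx, h1]
  simp

/-- the translation as an element of `G` -/
noncomputable def sG : G := ⟨s, Subgroup.subset_closure (by simp)⟩

lemma sG_pow (n : ℕ) (x : ℝ) : (((sG ^ n : G) : Pres KC) : ℝ ≃o ℝ) x = x + 2 * n := by
  induction n generalizing x with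
  | zero =>
    show x = _
    simp
  | succ n ih =>
    rw [pow_succ]
    show (((sG ^ n : G) : Pres KC) : ℝ ≃o ℝ) (x + 2) = _
    rw [ih]
    push_cast
    ring

lemma sG_pow_inv (n : ℕ) (x : ℝ) : ((((sG ^ n)⁻¹ : G) : Pres KC) : ℝ ≃o ℝ) x = x - 2 * n := by
  show (((sG ^ n : G) : Pres KC) : ℝ ≃o ℝ).symm x = _
  rw [OrderIso.symm_apply_eq, sG_pow]
  ring

lemma commuting {a b : G} (ha : τ a = 1) (hb : τ b = 1) :
    ∃ m : ℕ, ∀ k : ℕ, m ≤ k → Commute a (sG ^ k * b * (sG ^ k)⁻¹) := by
  obtain ⟨M, hM⟩ := of_τ_one ha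
  obtain ⟨N, hN⟩ := of_τ_one hb
  obtain ⟨m, hm⟩ := exists_nat_gt (|M| + |N|)
  refine ⟨m, fun k hk => ?_⟩
  have hk' : (m:ℝ) ≤ k := by exact_mod_cast hk
  set c : G := sG ^ k * b * (sG ^ k)⁻¹ with hc
  have hcx : ∀ x : ℝ, ((c : Pres KC) : ℝ ≃o ℝ) x = ((b : Pres KC) : ℝ ≃o ℝ) (x - 2 * k) + 2 * k := by
    intro x
    show (((sG ^ k : G) : Pres KC) : ℝ ≃o ℝ) (((b : Pres KC) : ℝ ≃o ℝ)
      (((((sG ^ k)⁻¹ : G) : Pres KC) : ℝ ≃o ℝ) x)) = _
    rw [sG_pow_inv, sG_pow]
  have hdis : ∀ x : ℝ, ((a : Pres KC) : ℝ ≃o ℝ) x = x ∨ ((c : Pres KC) : ℝ ≃o ℝ) x = x := by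
    intro x
    by_cases hx : M ≤ |x|
    · left; exact hM x hx
    · right
      push Not at hx
      rw [hcx, hN]
      · ring
      · have h1 := (abs_lt.1 (hx.trans_le (le_abs_self M))).2
        have h2 : x - 2 * k ≤ -|N| := by
          have h3 := abs_nonneg M
          have h4 := abs_nonneg N
          linarith
        have h5 := neg_abs_le (x - 2 * k)
        have h6 := le_abs_self N
        rw [abs_of_nonpos (by have := abs_nonneg N; linarith)]
        linarith
  have hcomm : Equiv.Perm.Disjoint (((a : Pres KC) : ℝ ≃o ℝ).toEquiv : Equiv.Perm ℝ)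
      (((c : Pres KC) : ℝ ≃o ℝ).toEquiv : Equiv.Perm ℝ) := hdis
  have h1 := hcomm.commute.eq
  show a * c = c * a
  apply Subtype.ext
  apply Subtype.ext
  apply RelIso.ext
  intro x
  exact congrArg (fun e : Equiv.Perm ℝ => e x) h1

theorem hom_of_qm (φ : H → ℝ) (h1 : IsQuasimorphism φ) (h2 : IsHomogeneous φ) (g h : H) :
    φ (g * h) = φ g + φ h := by
  let π : G →* H := cl.subgroupMap G
  have hπ : Function.Surjective π := MonoidHom.subgroupMap_surjective cl G
  have h1' : IsQuasimorphism (fun x : G => φ (π x)) := by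
    obtain ⟨D, hD⟩ := h1
    refine ⟨D, fun x y => ?_⟩
    show |φ (π (x * y)) - φ (π x) - φ (π y)| ≤ D
    rw [map_mul]
    exact hD _ _
  have h2' : IsHomogeneous (fun x : G => φ (π x)) := by
    intro x n
    show φ (π (x ^ n)) = n * φ (π x)
    rw [map_zpow]
    exact h2 _ _
  obtain ⟨x, rfl⟩ := hπ g
  obtain ⟨y, rfl⟩ := hπ h
  rw [← map_mul]
  refine hom_of_displaceable (φ := fun x : G => φ (π x)) τ sG ?_ (fun a b ha hb => commuting ha hb)
    h1' h2' x y
  exact τ_spec (k := 1) (M := 0) (fun x _ => by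
    show x + 2 = _
    norm_num)

/-- There is a finitely generated, non-amenable group `H` of mapping classes of `ℝ² - C` such that
the quotient space `Q(H) / Hom(H, ℝ)` has dimension zero, that is, every homogeneous quasimorphism
on `H` is a homomorphism. -/
theorem result : ∃ H : Subgroup ExtMap, (∀ c ∈ H, c ∈ MapS) ∧ Group.FG H ∧ ¬ Amenable H ∧
    dimQtilde H = 0 := by
  refine ⟨H, H_le, H_fg, not_amenable, ?_⟩
  have hsub : Subsingleton (Q H ⧸ (HomR H).submoduleOf (Q H)) := by
    rw [Submodule.Quotient.subsingleton_iff, eq_top_iff]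
    intro φ _
    exact fun g h => hom_of_qm φ.1 φ.2.1 φ.2.2 g h
  exact rank_subsingleton' ℝ _

end Pool.Agent.Results.MP_ac6992_gt.NonAmenableNoQM
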